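import Pool.Agent.W279.TriS.Defs

/-!
SA-REL (helper347): the invariant of pairs in a frame, over any normed field.
Generalises `Pool.Agent.W279.TriR.Frame` of helper279.
-/

set_option autoImplicit false

namespace Pool.Agent.W347.SA

open Pool.Agent.W279.Tri Pool.Agent.W279.TriS

section

variable {L : Type*} [NontriviallyNormedField L]

lemma ff_sub (m : Fin 3 → Fin 3 → L) (t s s' : L) :
    ff m t s - ff m t s' = (s - s') * hh m t s s' := by
  unfold ff hh; ring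

lemma hh_symm (m : Fin 3 → Fin 3 → L) (t s s' : L) : hh m t s s' = hh m t s' s := by
  unfold hh; ring

lemma G_frame (g : Fin 3 → Fin 3 → L) (ξ ξ' η η' : Fin 2 → L) (t s : L) :
    G g (ξ + t • ξ') (η + s • η') = ff (fm g ξ ξ' η η') t s := by
  simp only [ff, co, fm, fr, G, Pv, mon, Fin.sum_univ_three, Pi.add_apply, Pi.smul_apply,
    smul_eq_mul, Matrix.cons_val_zero, Matrix.cons_val_one, Matrix.cons_val]
  ring

lemma br_frame (ξ ξ' : Fin 2 → L) (t t' : L) :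
    br (ξ + t • ξ') (ξ + t' • ξ') = (t' - t) * br ξ ξ' := by
  simp only [br, Pi.add_apply, Pi.smul_apply, smul_eq_mul]
  ring

lemma At_sub {ξ ξ' u u' : Fin 2 → L} {t t' : L} (h : At ξ ξ' u t) (h' : At ξ ξ' u' t') :
    ∃ a b : L, a ≠ 0 ∧ b ≠ 0 ∧ br u u' = a * (b * ((t' - t) * br ξ ξ')) := by
  obtain ⟨a, ha, rfl⟩ := h
  obtain ⟨b, hb, rfl⟩ := h'
  exact ⟨a, b, ha, hb, by rw [br_smul_left, br_smul_right, br_frame]⟩

lemma At_ne {ξ ξ' u u' : Fin 2 → L} {t t' : L} (h : At ξ ξ' u t) (h' : At ξ ξ' u' t')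
    (hne : br u u' ≠ 0) : t' ≠ t := by
  rintro rfl
  obtain ⟨a, b, -, -, e⟩ := At_sub h h'
  apply hne
  rw [e, sub_self]
  ring

lemma ff_of_At {g : Fin 3 → Fin 3 → L} {ξ ξ' η η' u v : Fin 2 → L} {t s : L}
    (hu : At ξ ξ' u t) (hv : At η η' v s) (h : G g u v = 0) : ff (fm g ξ ξ' η η') t s = 0 := by
  obtain ⟨a, ha, rfl⟩ := hu
  obtain ⟨b, hb, rfl⟩ := hv
  rw [G_smul_left, G_smul_right, G_frame] at h
  have h1 := (mul_eq_zero.1 h).resolve_left (pow_ne_zero 2 ha)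
  exact (mul_eq_zero.1 h1).resolve_left (pow_ne_zero 2 hb)

/-- the invariant in the frame -/
lemma Rr_frame {g : Fin 3 → Fin 3 → L} {ξ ξ' η η' u v u' v' : Fin 2 → L} {t s t' s' : L}
    (hu : At ξ ξ' u t) (hv : At η η' v s) (hu' : At ξ ξ' u' t') (hv' : At η η' v' s')
    (h : G g u v = 0) (h' : G g u' v' = 0) (hbu : br u u' ≠ 0) (hbv : br v v' ≠ 0) :
    Rr g u v u' v' * ((t - t') ^ 2 * (br ξ ξ' * br η η') ^ 2) =
      -Ph (fm g ξ ξ' η η') t s t' s' := by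
  have e0 := ff_of_At hu hv h
  have e0' := ff_of_At hu' hv' h'
  have htt := At_ne hu hu' hbu
  have hss := At_ne hv hv' hbv
  have hξ : br ξ ξ' ≠ 0 := by
    intro h0
    obtain ⟨a, b, -, -, e⟩ := At_sub hu hu'
    apply hbu
    rw [e, h0]; ring
  have hη : br η η' ≠ 0 := by
    intro h0
    obtain ⟨a, b, -, -, e⟩ := At_sub hv hv'
    apply hbv
    rw [e, h0]; ring
  obtain ⟨a, ha, rfl⟩ := hu
  obtain ⟨b, hb, rfl⟩ := hv
  obtain ⟨a', ha', rfl⟩ := hu'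
  obtain ⟨b', hb', rfl⟩ := hv'
  rw [Rr_smul _ _ _ _ _ ha hb ha' hb']
  unfold Rr
  rw [G_frame, G_frame, br_frame, br_frame]
  have e1 : ff (fm g ξ ξ' η η') t s' = (s' - s) * hh (fm g ξ ξ' η η') t s s' := by
    have := ff_sub (fm g ξ ξ' η η') t s' s
    rw [e0, sub_zero] at this
    rw [this, hh_symm]
  have e2 : ff (fm g ξ ξ' η η') t' s = (s - s') * hh (fm g ξ ξ' η η') t' s s' := by
    have := ff_sub (fm g ξ ξ' η η') t' s s'
    rw [e0', sub_zero] at this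
    rw [this]
  rw [e1, e2]
  have n1 : t' - t ≠ 0 := sub_ne_zero.2 htt
  have n2 : s' - s ≠ 0 := sub_ne_zero.2 hss
  unfold Ph
  field_simp
  ring

end

theorem main : StmtRel := by
  intro L _ g ξ ξ' η η' u v u' v' t s t' s' hu hv hu' hv' h h' hbu hbv
  exact ⟨ff_of_At hu hv h, At_ne hu hu' hbu, Rr_frame hu hv hu' hv' h h' hbu hbv⟩

end Pool.Agent.W347.SA
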