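import Pool.Agent.W346.FD.ULT
import Pool.Agent.W659.SA.Defs

set_option autoImplicit false

namespace Pool.Agent.W347.SA.ULTS

open MvPolynomial NumberField Pool.Agent.W659 Pool.Agent.W659.SA Pool.Agent.W346.FD

/-- generic specialisation over a commutative ring -/
noncomputable def gs {O A : Type} [CommRing O] [CommRing A] (ψ : O →+* A) {r s n : ℕ}
    (F : Pol O r s n) (V : Fin r × Fin 3 → A) (u : Fin s → A) : MvPolynomial (Fin n) A :=
  eval₂ (C.comp ψ) (Sum.elim (fun ij => C (V ij)) (Sum.elim (fun l => C (u l)) X)) F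

lemma map_gs {O A B : Type} [CommRing O] [CommRing A] [CommRing B] (ψ : O →+* A) (θ : A →+* B)
    {r s n : ℕ} (F : Pol O r s n) (V : Fin r × Fin 3 → A) (u : Fin s → A) :
    MvPolynomial.map θ (gs ψ F V u) =
      gs (θ.comp ψ) F (fun ij => θ (V ij)) (fun l => θ (u l)) := by
  unfold gs
  induction F using MvPolynomial.induction_on with
  | C a => simp
  | add p q hp hq => rw [eval₂_add, eval₂_add, map_add, hp, hq]
  | mul_X p i hp =>
    rw [eval₂_mul, eval₂_mul, map_mul, hp]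
    congr 1
    rcases i with ij | l | k <;> simp

lemma spc_eq {O k : Type} [CommRing O] [CommRing k] (φ : O →+* k) {r s n : ℕ}
    (F : Pol O r s n) (V : Fin r → Fin 3 → k) (u : Fin s → k) :
    spc φ F V u = gs φ F (fun ij => V ij.1 ij.2) u := rfl

/-- uniform bound for the degrees -/
lemma deg_bound {O : Type} [CommRing O] {r s n : ℕ} (F : Pol O r s n) : ∃ D : ℕ,
    ∀ (k : Type) [Field k] (φ : O →+* k) (V : Fin r × Fin 3 → k) (u : Fin s → k),
      (gs φ F V u).totalDegree ≤ D := by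
  refine ⟨(gs (C : O →+* MvPolynomial ((Fin r × Fin 3) ⊕ Fin s) O) F
    (fun ij => X (Sum.inl ij)) (fun l => X (Sum.inr l))).totalDegree, ?_⟩
  intro k _ φ V u
  have h1 : gs φ F V u = MvPolynomial.map (eval₂Hom φ (Sum.elim V u))
      (gs (C : O →+* MvPolynomial ((Fin r × Fin 3) ⊕ Fin s) O) F
        (fun ij => X (Sum.inl ij)) (fun l => X (Sum.inr l))) := by
    rw [map_gs]
    congr 1
    · ext z
      simp
    · funext ij
      simp
    · funext l
      simp
  rw [h1]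
  refine Finset.sup_mono ?_
  exact MvPolynomial.support_map_subset _ _

/-- the variables of the system -/
abbrev Vars (r s n D : ℕ) : Type :=
  ((Fin r × Fin 3) ⊕ (Fin r × Fin 3)) ⊕
    ((Fin s ⊕ Fin s) ⊕ (Unit ⊕ {α : Fin n →₀ ℕ // α ∈ expo n D}))

/-- the equations -/
noncomputable def eqs {O : Type} [CommRing O] {r s n : ℕ} (D : ℕ) (a b : Fin r → ℤ)
    (F : Pol O r s n) : Set (MvPolynomial (Vars r s n D) O) :=
  (Set.range fun i : Fin r => X (Sum.inl (Sum.inl (i, 1))) ^ 2 * X (Sum.inl (Sum.inl (i, 2))) -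
      (X (Sum.inl (Sum.inl (i, 0))) ^ 3 + ((a i : ℤ) : MvPolynomial (Vars r s n D) O) *
        X (Sum.inl (Sum.inl (i, 0))) * X (Sum.inl (Sum.inl (i, 2))) ^ 2 +
        ((b i : ℤ) : MvPolynomial (Vars r s n D) O) * X (Sum.inl (Sum.inl (i, 2))) ^ 3)) ∪
  (Set.range fun i : Fin r => (∑ j : Fin 3, X (Sum.inl (Sum.inl (i, j))) *
      X (Sum.inl (Sum.inr (i, j)))) - 1) ∪
  (Set.range fun l : Fin s => X (Sum.inr (Sum.inl (Sum.inl l))) *
      X (Sum.inr (Sum.inl (Sum.inr l))) - 1) ∪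
  (Set.range fun β : Fin n →₀ ℕ =>
    (gs (C : O →+* MvPolynomial (Vars r s n D) O) F (fun ij => X (Sum.inl (Sum.inl ij)))
      (fun l => X (Sum.inr (Sum.inl (Sum.inl l)))) -
      C (X (Sum.inr (Sum.inr (Sum.inl ())))) *
        gg n D (fun α => (X (Sum.inr (Sum.inr (Sum.inr α))) :
          MvPolynomial (Vars r s n D) O)) ^ 2).coeff β)

lemma sys_iff {O k : Type} [CommRing O] [CommRing k] (φ : O →+* k) {r s n : ℕ} (D : ℕ)
    (a b : Fin r → ℤ) (F : Pol O r s n) (x : Vars r s n D → k) :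
    (∀ f ∈ Ideal.span (eqs D a b F), eval₂ φ x f = 0) ↔
      ((∀ i, x (Sum.inl (Sum.inl (i, 1))) ^ 2 * x (Sum.inl (Sum.inl (i, 2))) =
        x (Sum.inl (Sum.inl (i, 0))) ^ 3 + (a i : k) * x (Sum.inl (Sum.inl (i, 0))) *
        x (Sum.inl (Sum.inl (i, 2))) ^ 2 + (b i : k) * x (Sum.inl (Sum.inl (i, 2))) ^ 3) ∧
      (∀ i, ∑ j : Fin 3, x (Sum.inl (Sum.inl (i, j))) * x (Sum.inl (Sum.inr (i, j))) = 1) ∧
      (∀ l, x (Sum.inr (Sum.inl (Sum.inl l))) * x (Sum.inr (Sum.inl (Sum.inr l))) = 1) ∧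
      gs φ F (fun ij => x (Sum.inl (Sum.inl ij))) (fun l => x (Sum.inr (Sum.inl (Sum.inl l)))) =
        C (x (Sum.inr (Sum.inr (Sum.inl ())))) *
        gg n D (fun α => x (Sum.inr (Sum.inr (Sum.inr α)))) ^ 2) := by
  have h0 : ∀ f : MvPolynomial (Vars r s n D) O, eval₂ φ x f = eval₂Hom φ x f := fun f => rfl
  have h1 : (∀ f ∈ Ideal.span (eqs D a b F), eval₂ φ x f = 0) ↔ ∀ f ∈ eqs D a b F,
      eval₂Hom φ x f = 0 := by
    constructor
    · intro h f hf
      exact h f (Ideal.subset_span hf)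
    · intro h f hf
      have h2 : Ideal.span (eqs D a b F) ≤ RingHom.ker (eval₂Hom φ x) :=
        Ideal.span_le.2 fun g hg => h g hg
      exact h2 hf
  rw [h1]
  have h3 : ∀ (g : MvPolynomial (Fin n) (MvPolynomial (Vars r s n D) O)),
      (∀ β, eval₂Hom φ x (g.coeff β) = 0) ↔ MvPolynomial.map (eval₂Hom φ x) g = 0 := by
    intro g
    constructor
    · intro h
      ext β
      rw [coeff_map, coeff_zero]
      exact h β
    · intro h β
      have := congrArg (fun q => coeff β q) h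
      simp only [coeff_map, coeff_zero] at this
      exact this
  have hC : (eval₂Hom φ x).comp (C : O →+* MvPolynomial (Vars r s n D) O) = φ := by
    ext z
    simp
  have h4 : MvPolynomial.map (eval₂Hom φ x)
      (gs (C : O →+* MvPolynomial (Vars r s n D) O) F (fun ij => X (Sum.inl (Sum.inl ij)))
      (fun l => X (Sum.inr (Sum.inl (Sum.inl l)))) -
      C (X (Sum.inr (Sum.inr (Sum.inl ())))) *
        gg n D (fun α => (X (Sum.inr (Sum.inr (Sum.inr α))) :
          MvPolynomial (Vars r s n D) O)) ^ 2) =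
      gs φ F (fun ij => x (Sum.inl (Sum.inl ij))) (fun l => x (Sum.inr (Sum.inl (Sum.inl l)))) -
        C (x (Sum.inr (Sum.inr (Sum.inl ())))) *
        gg n D (fun α => x (Sum.inr (Sum.inr (Sum.inr α)))) ^ 2 := by
    rw [map_sub, map_mul, map_pow, map_gs, map_gg, map_C, hC]
    simp only [coe_eval₂Hom, eval₂_X]
  unfold eqs
  constructor
  · intro h
    refine ⟨fun i => ?_, fun i => ?_, fun l => ?_, ?_⟩
    · have h5 := h _ (Or.inl (Or.inl (Or.inl ⟨i, rfl⟩)))
      simp only [map_sub, map_mul, map_pow, map_add, eval₂Hom_X', map_intCast] at h5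
      exact sub_eq_zero.1 h5
    · have h5 := h _ (Or.inl (Or.inl (Or.inr ⟨i, rfl⟩)))
      simp only [map_sub, map_mul, map_sum, eval₂Hom_X', map_one] at h5
      exact sub_eq_zero.1 h5
    · have h5 := h _ (Or.inl (Or.inr ⟨l, rfl⟩))
      simp only [map_sub, map_mul, eval₂Hom_X', map_one] at h5
      exact sub_eq_zero.1 h5
    · have h5 := (h3 _).1 fun β => h _ (Or.inr ⟨β, rfl⟩)
      rw [h4] at h5
      exact sub_eq_zero.1 h5
  · rintro ⟨h5, h6, h8, h7⟩ f hf
    rcases hf with ((⟨i, rfl⟩ | ⟨i, rfl⟩) | ⟨l, rfl⟩) | ⟨β, rfl⟩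
    · simp only [map_sub, map_mul, map_pow, map_add, eval₂Hom_X', map_intCast]
      exact sub_eq_zero.2 (h5 i)
    · simp only [map_sub, map_mul, map_sum, eval₂Hom_X', map_one]
      exact sub_eq_zero.2 (h6 i)
    · simp only [map_sub, map_mul, eval₂Hom_X', map_one]
      exact sub_eq_zero.2 (h8 l)
    · refine (h3 _).2 ?_ β
      rw [h4]
      exact sub_eq_zero.2 h7

theorem main : S_TRK → S_ULTS := by
  intro hTR K _ _ r s n a b F σ hF
  by_contra hcon
  push Not at hcon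
  obtain ⟨D, hD⟩ := deg_bound F
  obtain ⟨x, hx⟩ := hTR K (Vars r s n D) (Ideal.span (eqs D a b F)) (by
    intro N
    obtain ⟨p, hp, hNp, k, hk, hc, φ, V, u, hV, hu, c, g, hcg⟩ := hcon N
    refine ⟨p, hp, hNp, k, hk, hc, φ, ?_⟩
    -- a good g
    obtain ⟨g', hg', hg'D⟩ : ∃ g' : MvPolynomial (Fin n) k,
        spc φ F V u = C c * g' ^ 2 ∧ g'.totalDegree ≤ D := by
      by_cases h1 : c = 0 ∨ g = 0
      · refine ⟨0, ?_, by simp⟩
        rw [hcg]
        rcases h1 with h1 | h1 <;> simp [h1]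
      · push Not at h1
        refine ⟨g, hcg, ?_⟩
        have h2 := hD k φ (fun ij => V ij.1 ij.2) u
        rw [← spc_eq, hcg, pow_two, totalDegree_mul_of_isDomain
          (by rw [Ne, C_eq_zero]; exact h1.1) (mul_ne_zero h1.2 h1.2),
          totalDegree_mul_of_isDomain h1.2 h1.2] at h2
        omega
    -- inverses
    have hW : ∀ i, ∃ W : Fin 3 → k, ∑ j, V i j * W j = 1 := by
      intro i
      obtain ⟨j, hj⟩ := Function.ne_iff.1 (hV i).1
      refine ⟨Pi.single j (V i j)⁻¹, ?_⟩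
      rw [Finset.sum_eq_single j]
      · rw [Pi.single_eq_same]
        exact mul_inv_cancel₀ hj
      · intro k _ hk
        rw [Pi.single_eq_of_ne hk, mul_zero]
      · intro h
        exact absurd (Finset.mem_univ j) h
    choose W hW using hW
    refine ⟨Sum.elim (Sum.elim (fun ij => V ij.1 ij.2) (fun ij => W ij.1 ij.2))
      (Sum.elim (Sum.elim u (fun l => (u l)⁻¹))
        (Sum.elim (fun _ => c) (fun α => g'.coeff α.1))), ?_⟩
    rw [sys_iff]
    refine ⟨fun i => ?_, fun i => ?_, fun l => ?_, ?_⟩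
    · exact (hV i).2
    · exact hW i
    · exact mul_inv_cancel₀ (hu l)
    · simp only [Sum.elim_inl, Sum.elim_inr]
      rw [gg_coeff n D g' hg'D]
      exact hg') σ
  rw [sys_iff] at hx
  obtain ⟨h1, h2, h4, h3⟩ := hx
  obtain ⟨z, hz⟩ := IsAlgClosed.exists_pow_nat_eq (x (Sum.inr (Sum.inr (Sum.inl ())))) (n := 2)
    (by norm_num)
  refine hF (fun i j => x (Sum.inl (Sum.inl (i, j)))) (fun l => x (Sum.inr (Sum.inl (Sum.inl l))))
    (fun i => ⟨?_, h1 i⟩) (fun l => ?_)
    (C z * gg n D (fun α => x (Sum.inr (Sum.inr (Sum.inr α))))) ?_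
  · intro h0
    have h4 := h2 i
    have h5 : ∀ j, x (Sum.inl (Sum.inl (i, j))) = 0 := fun j => congrFun h0 j
    simp [h5] at h4
  · exact left_ne_zero_of_mul_eq_one (h4 l)
  · rw [mul_pow, ← C_pow, hz]
    exact h3

end Pool.Agent.W347.SA.ULTS
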